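import Pool.Agent.helper25.PP.Spec

set_option autoImplicit false

namespace PP

open Finset SimpleGraph CT

theorem NUM : NUM_stmt := by
  intro ε hε
  set r : ℝ := (2 : ℝ) ^ ((1 : ℝ) / 300) with hr
  have hr300 : r ^ 300 = 2 := by
    rw [hr, ← Real.rpow_natCast, ← Real.rpow_mul (by norm_num)]
    norm_num
  have hr1 : 1 < r := by
    rw [hr]; exact Real.one_lt_rpow (by norm_num) (by norm_num)
  have hr0 : 0 < r := by linarith
  have h1 : Filter.Tendsto (fun n : ℕ => (n : ℝ) ^ 13 / r ^ n) Filter.atTop (nhds 0) :=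
    tendsto_pow_const_div_const_pow_of_one_lt 13 hr1
  have h2 : Filter.Tendsto (fun n : ℕ => 1500000 / (n : ℝ)) Filter.atTop (nhds 0) :=
    tendsto_const_div_atTop_nhds_zero_nat 1500000
  have h3 : Filter.Tendsto (fun n : ℕ => 1500000 / (n : ℝ) + 896 * ((n : ℝ) ^ 13 / r ^ n))
      Filter.atTop (nhds 0) := by
    simpa using h2.add (h1.const_mul 896)
  have h4 := (h3.eventually (gt_mem_nhds hε))
  obtain ⟨n₀, hn₀⟩ := Filter.eventually_atTop.1 h4
  refine ⟨n₀, fun n hn => ?_⟩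
  refine le_trans ?_ (hn₀ n hn).le
  have hp : r ^ n ≤ 2 * 2 ^ (n / 300) := by
    calc r ^ n ≤ r ^ (300 * (n / 300) + 300) := by
          apply pow_le_pow_right₀ hr1.le
          have := Nat.div_add_mod n 300
          have := Nat.mod_lt n (show 300 > 0 by norm_num)
          omega
      _ = 2 * 2 ^ (n / 300) := by rw [pow_add, pow_mul, hr300]; ring
  have hrn : 0 < r ^ n := by positivity
  have h5 : (n : ℝ) * (7 * (2 * (n : ℝ) ^ 2) ^ 6) / 2 ^ (n / 300) ≤
      896 * ((n : ℝ) ^ 13 / r ^ n) := by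
    have e1 : (n : ℝ) * (7 * (2 * (n : ℝ) ^ 2) ^ 6) = 448 * (n : ℝ) ^ 13 := by ring
    rw [e1, ← mul_div_assoc, div_le_div_iff₀ (by positivity) hrn]
    have h13 : (0 : ℝ) ≤ (n : ℝ) ^ 13 := by positivity
    nlinarith [mul_le_mul_of_nonneg_left hp h13]
  linarith

end PP
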